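import Mathlib
import Pool.Agent.Helper630.Stable.T6

set_option autoImplicit false

/-!
Stably regular operators from `L^p(μ)` to `L^{p'}(μ)` which are not `p'`-absolutely summing, for
arbitrary measures.
-/

open MeasureTheory
open scoped ENNReal

namespace Pool.Agent.Y586.SR

universe u

section

variable {Ω : Type u} [MeasurableSpace Ω]

/-- The real space `L^p(μ)` (Mathlib's `Lp`). -/
def LS (p : ℝ≥0∞) (μ : Measure Ω) : Type u := Lp ℝ p μ

/-- The usual norm and group structure of `L^p(μ)`. -/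
noncomputable instance instNorm (p : ℝ≥0∞) (μ : Measure Ω) [Fact (1 ≤ p)] :
    NormedAddCommGroup (LS p μ) :=
  (Lp.instNormedAddCommGroup : NormedAddCommGroup (Lp ℝ p μ))

/-- The usual normed space structure of `L^p(μ)`. -/
noncomputable instance instSpace (p : ℝ≥0∞) (μ : Measure Ω) [Fact (1 ≤ p)] :
    NormedSpace ℝ (LS p μ) :=
  (Lp.instNormedSpace : NormedSpace ℝ (Lp ℝ p μ))

/-- The function (chosen representative) of an element of `L^p(μ)`. -/
noncomputable def fn {p : ℝ≥0∞} {μ : Measure Ω} : LS p μ → Ω → ℝ := fun f : Lp ℝ p μ => ⇑f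

/-- Bounded linear operators `L^p(μ) → L^q(μ)`. -/
abbrev Op (p q : ℝ≥0∞) (μ : Measure Ω) [Fact (1 ≤ p)] [Fact (1 ≤ q)] : Type u :=
  LS p μ →L[ℝ] LS q μ

/-- The pairing `⟨x, f⟩ = ∫ x f dμ` of functions in `L^p` and `L^{p'}`. -/
noncomputable def pairing {p p' : ℝ≥0∞} {μ : Measure Ω} (x : LS p μ) (f : LS p' μ) : ℝ :=
  ∫ t, fn x t * fn f t ∂μ

variable {μ : Measure Ω} {p q : ℝ≥0∞} [Fact (1 ≤ p)] [Fact (1 ≤ q)]

/-- A subset of `L^q(μ)` is order bounded if it lies in an order interval `{h : -g ≤ h ≤ g}` for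
some `0 ≤ g` in `L^q(μ)` (inequalities almost everywhere). -/
def OrderBounded (S : Set (LS q μ)) : Prop :=
  ∃ g : LS q μ, (∀ᵐ t ∂μ, 0 ≤ fn g t) ∧ ∀ h ∈ S, ∀ᵐ t ∂μ, -fn g t ≤ fn h t ∧ fn h t ≤ fn g t

/-- A bounded operator `T : L^p(μ) → L^q(μ)` is regular if it sends order bounded sets to order
bounded sets. -/
def Regular (T : Op p q μ) : Prop := ∀ S : Set (LS p μ), OrderBounded S → OrderBounded (T '' S)

/-- `U : L^p(μ) → L^q(μ)` is (two-sided) stably regular if `W U V` is regular for all bounded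
operators `V` on `L^p(μ)` and `W` on `L^q(μ)`. -/
def StablyRegular (U : Op p q μ) : Prop :=
  ∀ (V : Op p p μ) (W : Op q q μ), Regular (W.comp (U.comp V))

/-- `U : L^p(μ) → L^q(μ)` is `r`-absolutely summing. Here `p'` is the conjugate exponent of `p`,
so that the supremum is over the unit ball of `L^{p'}(μ)`, the dual of `L^p(μ)`. -/
def AbsSumming (r : ℝ) (p' : ℝ≥0∞) [Fact (1 ≤ p')] (U : Op p q μ) : Prop :=
  ∃ C : ℝ, ∀ (n : ℕ) (x : Fin n → LS p μ),
    (∑ k, ‖U (x k)‖ ^ r) ^ (1 / r) ≤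
      C * ⨆ f : {f : LS p' μ // ‖f‖ ≤ 1}, (∑ k, |pairing (x k) f.1| ^ r) ^ (1 / r)

theorem exists_stable (hp2 : 2 < p) (hp : p < ∞)
    (hpq : p⁻¹ + q⁻¹ = 1) (sys : Pool.Agent.Helper630.Stable.Sys μ ℕ) :
    ∃ U : Op p q μ, StablyRegular U ∧ ¬ AbsSumming q.toReal q U := by
  have : ENNReal.HolderConjugate p q := ENNReal.holderConjugate_iff.mpr hpq
  have hp2' : 2 < p.toReal := by
    have := (ENNReal.toReal_lt_toReal (by simp) hp.ne).mpr hp2
    simpa using this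
  have hpq' : q.toReal.HolderConjugate p.toReal :=
    (ENNReal.HolderConjugate.toReal (p := p) (q := q) (by linarith)).symm
  have hq : q ≠ ∞ := by
    intro h
    have := hpq'.pos
    rw [h] at this
    simp at this
  obtain ⟨U, hU1, hU2⟩ := Pool.Agent.Helper630.Stable.main_op hpq' hp.ne hq hp2' sys
  have hq0 : 0 < q.toReal := hpq'.pos
  refine ⟨U, ?_, ?_⟩
  · intro V W S hS
    obtain ⟨g, hg0, hg⟩ := hS
    have hg0' : (0 : Lp ℝ p μ) ≤ (g : Lp ℝ p μ) := (Lp.coeFn_nonneg (g : Lp ℝ p μ)).mp hg0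
    obtain ⟨h, hh⟩ := hU1 V W g
    have h0 : 0 ≤ h := by
      have h1 := (hh 0 (neg_nonpos.mpr hg0') hg0').1
      have e : ∀ (V' : Lp ℝ p μ →L[ℝ] Lp ℝ p μ) (W' : Lp ℝ q μ →L[ℝ] Lp ℝ q μ),
          W' (U (V' 0)) = 0 := by
        intro V' W'
        rw [map_zero, map_zero, map_zero]
      exact (e V W).symm.le.trans h1
    refine ⟨h, (Lp.coeFn_nonneg h).mpr h0, ?_⟩
    rintro _ ⟨f, hf, rfl⟩
    let f' : Lp ℝ p μ := f
    let g' : Lp ℝ p μ := g
    have hf1 : -g' ≤ f' := by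
      rw [← Lp.coeFn_le]
      filter_upwards [hg f hf, Lp.coeFn_neg g'] with t h1 h2
      rw [h2]
      exact h1.1
    have hf2 : f' ≤ g' := by
      rw [← Lp.coeFn_le]
      filter_upwards [hg f hf] with t h1
      exact h1.2
    have h1 := hh f hf1 hf2
    have h2 := (Lp.coeFn_le _ _).mpr (neg_le.mp h1.2)
    have h3 := (Lp.coeFn_le _ _).mpr h1.1
    filter_upwards [h2, h3, Lp.coeFn_neg h] with t h4 h5 h6
    rw [h6] at h4
    exact ⟨h4, h5⟩
  · rintro ⟨C, hC⟩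
    obtain ⟨N, x, hx1, hx2⟩ := hU2 ((|C| + 1) ^ q.toReal)
    have h1 := hC N x
    have h2 : (⨆ f : {f : LS q μ // ‖f‖ ≤ 1},
        (∑ k, |pairing (x k : LS p μ) f.1| ^ q.toReal) ^ (1 / q.toReal)) ≤ 1 := by
      have : Nonempty {f : LS q μ // ‖f‖ ≤ 1} := ⟨⟨0, by simp⟩⟩
      refine ciSup_le fun f => ?_
      have h3 := hx1 f.1
      have h4 : ‖f.1‖ ^ q.toReal ≤ 1 := Real.rpow_le_one (norm_nonneg _) f.2 hq0.le
      refine Real.rpow_le_one (Finset.sum_nonneg fun k _ => Real.rpow_nonneg (abs_nonneg _) _)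
        (h3.trans h4) (by positivity)
    have h0 : 0 ≤ (⨆ f : {f : LS q μ // ‖f‖ ≤ 1},
        (∑ k, |pairing (x k : LS p μ) f.1| ^ q.toReal) ^ (1 / q.toReal)) :=
      Real.iSup_nonneg fun f =>
        Real.rpow_nonneg (Finset.sum_nonneg fun k _ => Real.rpow_nonneg (abs_nonneg _) _) _
    have h5 : |C| + 1 ≤ (∑ k, ‖U (x k)‖ ^ q.toReal) ^ (1 / q.toReal) := by
      have h6 := Real.rpow_le_rpow (by positivity) hx2 (by positivity : 0 ≤ 1 / q.toReal)
      rwa [← Real.rpow_mul (by positivity), mul_one_div_cancel hq0.ne', Real.rpow_one] at h6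
    have h8 := h5.trans h1
    set s := (⨆ f : {f : LS q μ // ‖f‖ ≤ 1},
        (∑ k, |pairing (x k : LS p μ) f.1| ^ q.toReal) ^ (1 / q.toReal))
    have h7 : C * s ≤ |C| := by
      calc C * s ≤ |C| * s := mul_le_mul_of_nonneg_right (le_abs_self _) h0
        _ ≤ |C| * 1 := mul_le_mul_of_nonneg_left h2 (abs_nonneg _)
        _ = |C| := mul_one _
    linarith

end

end Pool.Agent.Y586.SR
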