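import Mathlib
import Pool.Agent.Y586.SR.Gen

set_option autoImplicit false

/-!
Infinite dimensional spaces `L^p(μ)` have infinite systems of disjoint sets of finite positive
measure.
-/

open MeasureTheory Set
open scoped ENNReal

namespace Pool.Agent.Y586.SR

universe u

variable {Ω : Type u} [MeasurableSpace Ω] (μ : Measure Ω) (p : ℝ≥0∞)

/-- The span of the indicator functions of the measurable subsets of `A` of finite measure. -/
noncomputable def spn (A : Set Ω) : Submodule ℝ (Lp ℝ p μ) :=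
  Submodule.span ℝ {f | ∃ (B : Set Ω) (hB : MeasurableSet B) (hf : μ B ≠ ∞), B ⊆ A ∧
    f = indicatorConstLp p hB hf (1 : ℝ)}

/-- The span for `A` is not finite dimensional. -/
def Big (A : Set Ω) : Prop := ¬ FiniteDimensional ℝ (spn μ p A)

variable {μ p}

theorem spn_mono {A B : Set Ω} (h : A ⊆ B) : spn μ p A ≤ spn μ p B := by
  apply Submodule.span_mono
  rintro f ⟨C, hC, hf, hCA, rfl⟩
  exact ⟨C, hC, hf, hCA.trans h, rfl⟩

theorem Big.mono {A B : Set Ω} (h : A ⊆ B) (hA : Big μ p A) : Big μ p B := by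
  intro hB
  apply hA
  have := hB
  exact Submodule.finiteDimensional_of_le (spn_mono (μ := μ) (p := p) h)

theorem spn_le {A C : Set Ω} (hC : MeasurableSet C) :
    spn μ p A ≤ spn μ p (A ∩ C) ⊔ spn μ p (A \ C) := by
  apply Submodule.span_le.2
  rintro f ⟨B, hB, hf, hBA, rfl⟩
  have h1 : μ (B ∩ C) ≠ ∞ := ne_top_of_le_ne_top hf (measure_mono inter_subset_left)
  have h2 : μ (B \ C) ≠ ∞ := ne_top_of_le_ne_top hf (measure_mono sdiff_subset)
  have h3 : indicatorConstLp p hB hf (1 : ℝ) =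
      indicatorConstLp p (hB.inter hC) h1 (1 : ℝ) + indicatorConstLp p (hB.diff hC) h2 (1 : ℝ) := by
    have h4 := indicatorConstLp_disjoint_union (p := p) (c := (1 : ℝ)) (hB.inter hC) (hB.diff hC)
      h1 h2 (by
        rw [Set.disjoint_left]
        exact fun x hx hx2 => hx2.2 hx.2)
    rw [← h4]
    congr 1
    exact (inter_union_diff B C).symm
  rw [h3]
  apply Submodule.add_mem_sup
  · exact Submodule.subset_span ⟨B ∩ C, hB.inter hC, h1, fun x hx => ⟨hBA hx.1, hx.2⟩, rfl⟩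
  · exact Submodule.subset_span ⟨B \ C, hB.diff hC, h2, fun x hx => ⟨hBA hx.1, hx.2⟩, rfl⟩

theorem Big.split {A C : Set Ω} (hC : MeasurableSet C) (hA : Big μ p A) :
    Big μ p (A ∩ C) ∨ Big μ p (A \ C) := by
  by_contra hcon
  unfold Big at hcon
  push Not at hcon
  obtain ⟨h1, h2⟩ := hcon
  apply hA
  have h3 : FiniteDimensional ℝ (spn μ p (A ∩ C) ⊔ spn μ p (A \ C) : Submodule ℝ (Lp ℝ p μ)) :=
    Submodule.finiteDimensional_sup _ _
  exact Submodule.finiteDimensional_of_le (spn_le hC)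

theorem ind_zero {B : Set Ω} (hB : MeasurableSet B) (hf : μ B ≠ ∞) (h0 : μ B = 0) :
    indicatorConstLp p hB hf (1 : ℝ) = 0 := by
  rw [Lp.eq_zero_iff_ae_eq_zero]
  have h1 := indicatorConstLp_coeFn (p := p) (hs := hB) (hμs := hf) (c := (1 : ℝ))
  have h2 : ∀ᵐ x ∂μ, x ∉ B := measure_eq_zero_iff_ae_notMem.1 h0
  filter_upwards [h1, h2] with x h3 h4
  rw [h3, Set.indicator_of_notMem h4]
  rfl

theorem ind_congr {B C : Set Ω} (hB : MeasurableSet B) (hf : μ B ≠ ∞) (hC : MeasurableSet C)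
    (hf' : μ C ≠ ∞) (h1 : μ (B \ C) = 0) (h2 : μ (C \ B) = 0) :
    indicatorConstLp p hB hf (1 : ℝ) = indicatorConstLp p hC hf' (1 : ℝ) := by
  apply Lp.ext
  have e1 := indicatorConstLp_coeFn (p := p) (hs := hB) (hμs := hf) (c := (1 : ℝ))
  have e2 := indicatorConstLp_coeFn (p := p) (hs := hC) (hμs := hf') (c := (1 : ℝ))
  have h3 : ∀ᵐ x ∂μ, x ∉ B \ C := measure_eq_zero_iff_ae_notMem.1 h1
  have h4 : ∀ᵐ x ∂μ, x ∉ C \ B := measure_eq_zero_iff_ae_notMem.1 h2
  filter_upwards [e1, e2, h3, h4] with x h5 h6 h7 h8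
  rw [h5, h6]
  by_cases hx : x ∈ B
  · have : x ∈ C := by
      by_contra hxC
      exact h7 ⟨hx, hxC⟩
    rw [Set.indicator_of_mem hx, Set.indicator_of_mem this]
  · have : x ∉ C := fun hxC => h8 ⟨hxC, hx⟩
    rw [Set.indicator_of_notMem hx, Set.indicator_of_notMem this]

/-- Two disjoint subsets of finite positive measure of a big set. -/
theorem Big.exists_two {A : Set Ω} (hA : Big μ p A) :
    ∃ C D : Set Ω, MeasurableSet C ∧ MeasurableSet D ∧ C ⊆ A ∧ D ⊆ A ∧ Disjoint C D ∧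
      μ C ≠ ∞ ∧ μ D ≠ ∞ ∧ μ C ≠ 0 ∧ μ D ≠ 0 := by
  by_contra hcon
  push Not at hcon
  -- all indicators lie in the span of one of them
  apply hA
  by_cases h0 : ∀ B : Set Ω, MeasurableSet B → μ B ≠ ∞ → B ⊆ A → μ B = 0
  · have : spn μ p A ≤ ⊥ := by
      apply Submodule.span_le.2
      rintro f ⟨B, hB, hf, hBA, rfl⟩
      rw [SetLike.mem_coe, Submodule.mem_bot]
      exact ind_zero hB hf (h0 B hB hf hBA)
    rw [le_bot_iff.1 this]
    infer_instance
  · push Not at h0
    obtain ⟨B1, hB1, hf1, hB1A, hne1⟩ := h0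
    have : spn μ p A ≤ Submodule.span ℝ {indicatorConstLp p hB1 hf1 (1 : ℝ)} := by
      apply Submodule.span_le.2
      rintro f ⟨B, hB, hf, hBA, rfl⟩
      rw [SetLike.mem_coe]
      have g1 : μ (B ∩ B1) ≠ ∞ := ne_top_of_le_ne_top hf (measure_mono inter_subset_left)
      have g2 : μ (B \ B1) ≠ ∞ := ne_top_of_le_ne_top hf (measure_mono sdiff_subset)
      have g3 : μ (B1 \ B) ≠ ∞ := ne_top_of_le_ne_top hf1 (measure_mono sdiff_subset)
      have k2 : μ (B \ B1) = 0 := by
        by_contra hne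
        refine hne1 (hcon (B \ B1) B1 (hB.diff hB1) hB1 (sdiff_subset.trans hBA) hB1A ?_ g2 hf1
          hne)
        rw [Set.disjoint_left]
        exact fun x hx hx2 => hx.2 hx2
      by_cases k1 : μ (B ∩ B1) = 0
      · have hB0 : μ B = 0 := by
          have : μ B ≤ μ (B ∩ B1) + μ (B \ B1) := by
            rw [measure_inter_add_diff B hB1]
          rw [k1, k2, add_zero] at this
          exact le_antisymm this zero_le
        rw [ind_zero hB hf hB0]
        exact zero_mem _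
      · have k3 : μ (B1 \ B) = 0 := by
          by_contra hne
          refine hne (hcon (B ∩ B1) (B1 \ B) (hB.inter hB1) (hB1.diff hB)
            (inter_subset_left.trans hBA) (sdiff_subset.trans hB1A) ?_ g1 g3 k1)
          rw [Set.disjoint_left]
          exact fun x hx hx2 => hx2.2 hx.1
        rw [ind_congr hB hf hB1 hf1 k2 k3]
        exact Submodule.mem_span_singleton_self _
    exact Submodule.finiteDimensional_of_le this

theorem Big.step {A : Set Ω} (hA : Big μ p A) :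
    ∃ B : Set Ω, MeasurableSet B ∧ B ⊆ A ∧ μ B ≠ ∞ ∧ μ B ≠ 0 ∧ Big μ p (A \ B) := by
  obtain ⟨C, D, hC, hD, hCA, hDA, hdis, hCf, hDf, hC0, hD0⟩ := hA.exists_two
  rcases hA.split hC with h | h
  · refine ⟨D, hD, hDA, hDf, hD0, h.mono ?_⟩
    rintro x ⟨hxA, hxC⟩
    exact ⟨hxA, fun hxD => Set.disjoint_left.1 hdis hxC hxD⟩
  · exact ⟨C, hC, hCA, hCf, hC0, h⟩

theorem big_univ [Fact (1 ≤ p)] (hp : p ≠ ∞) (h : ¬ FiniteDimensional ℝ (Lp ℝ p μ)) :
    Big μ p (univ : Set Ω) := by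
  intro hfin
  apply h
  have hcl : IsClosed (spn μ p (univ : Set Ω) : Set (Lp ℝ p μ)) :=
    (spn μ p (univ : Set Ω)).closed_of_finiteDimensional
  have htop : ∀ f : Lp ℝ p μ, f ∈ spn μ p (univ : Set Ω) := by
    refine Lp.induction hp (motive := fun f => f ∈ spn μ p (univ : Set Ω)) ?_ ?_ ?_
    · intro c s hs hμs
      have h1 : indicatorConstLp p hs hμs.ne c = c • indicatorConstLp p hs hμs.ne (1 : ℝ) := by
        apply Lp.ext
        have e1 := indicatorConstLp_coeFn (p := p) (hs := hs) (hμs := hμs.ne) (c := c)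
        have e2 := indicatorConstLp_coeFn (p := p) (hs := hs) (hμs := hμs.ne) (c := (1 : ℝ))
        have e3 := Lp.coeFn_smul c (indicatorConstLp p hs hμs.ne (1 : ℝ))
        filter_upwards [e1, e2, e3] with x h3 h4 h5
        rw [h3, h5, Pi.smul_apply, h4]
        by_cases hx : x ∈ s
        · rw [Set.indicator_of_mem hx, Set.indicator_of_mem hx, smul_eq_mul, mul_one]
        · rw [Set.indicator_of_notMem hx, Set.indicator_of_notMem hx, smul_zero]
      change indicatorConstLp p hs hμs.ne c ∈ _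
      rw [h1]
      exact Submodule.smul_mem _ _ (Submodule.subset_span ⟨s, hs, hμs.ne, subset_univ _, rfl⟩)
    · intro f g hf hg _ h1 h2
      exact Submodule.add_mem _ h1 h2
    · exact hcl
  have : spn μ p (univ : Set Ω) = ⊤ := (Submodule.eq_top_iff').2 htop
  have h2 : FiniteDimensional ℝ (⊤ : Submodule ℝ (Lp ℝ p μ)) := this ▸ hfin
  exact Module.finite_def.2 (Submodule.fg_top _ |>.1 (Module.finite_def.1 h2))

theorem exists_sys [Fact (1 ≤ p)] (hp : p ≠ ∞) (h : ¬ FiniteDimensional ℝ (Lp ℝ p μ)) :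
    Nonempty (Pool.Agent.Helper630.Stable.Sys μ ℕ) := by
  have hstep : ∀ A : {A : Set Ω // Big μ p A}, ∃ B : Set Ω, MeasurableSet B ∧ B ⊆ A.1 ∧
      μ B ≠ ∞ ∧ μ B ≠ 0 ∧ Big μ p (A.1 \ B) := fun A => A.2.step
  choose B h1 h2 h3 h4 h5 using hstep
  let s : ℕ → {A : Set Ω // Big μ p A} := fun n =>
    Nat.rec ⟨univ, big_univ hp h⟩ (fun _ A => ⟨A.1 \ B A, h5 A⟩) n
  have hs : ∀ n, (s (n + 1)).1 = (s n).1 \ B (s n) := fun n => rfl
  have hmono : ∀ m n, m ≤ n → (s n).1 ⊆ (s m).1 := by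
    intro m n hmn
    induction n, hmn using Nat.le_induction with
    | base => exact subset_rfl
    | succ k hk ih =>
      rw [hs]
      exact sdiff_subset.trans ih
  have hdis : ∀ m n, m < n → Disjoint (B (s m)) (B (s n)) := by
    intro m n hmn
    rw [Set.disjoint_left]
    intro x hx hx2
    have h6 : x ∈ (s (m + 1)).1 := hmono (m + 1) n hmn (h2 _ hx2)
    rw [hs] at h6
    exact h6.2 hx
  refine ⟨⟨fun n => B (s n), fun n => h1 _, ?_, fun n => h3 _, fun n => ?_⟩⟩
  · intro k l hkl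
    rcases lt_or_gt_of_ne hkl with h6 | h6
    · exact hdis k l h6
    · exact (hdis l k h6).symm
  · exact ENNReal.toReal_pos (h4 _) (h3 _)

end Pool.Agent.Y586.SR
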